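import Mathlib

/-! # BHT: bounded height of the torsion parameters of `∞₊ - ∞₋` on `y² = x^(2m) + r(x)`,
`0 ≠ r`, `deg r < m` (`m = g + 1`); module statements (MP_160b6c_nt, candidate (C)) -/

open Polynomial NumberField

namespace BHT

/-- The polynomial Pell equation `u² - f w² = c` has a solution with `deg u = N`
(`c` a nonzero constant, `w ≠ 0`). For squarefree monic `f` of degree `2m` this says that the
order of `∞₊ - ∞₋` in the Jacobian of `y² = f(x)` divides `N`. -/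
def Pell {K : Type*} [Field K] (f : K[X]) (N : ℕ) : Prop :=
  ∃ u w : K[X], ∃ c : K, c ≠ 0 ∧ w ≠ 0 ∧ u ^ 2 - f * w ^ 2 = C c ∧ u.natDegree = N

/-- number of roots (with multiplicity) of `f` in the closed disc of centre `ζ`, radius `δ`
for the absolute value `v` -/
noncomputable def cnt {E : Type*} [Field E] (v : E → ℝ) (f : E[X]) (ζ : E) (δ : ℝ) : ℕ :=
  haveI := Classical.decPred (fun α : E => v (α - ζ) ≤ δ)
  f.roots.countP (fun α => v (α - ζ) ≤ δ)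

/-- A1: every circle in an odd annulus meets `{|T| ≤ 1}` (indeed `T⁻¹[-1,1]`) -/
def A1Stmt : Prop := ∀ (T f w : ℂ[X]) (c : ℂ), c ≠ 0 → T ^ 2 - 1 = C c * f * w ^ 2 →
    ∀ (ζ : ℂ) (ρ₁ ρ₂ : ℝ), 0 ≤ ρ₁ → ρ₁ < ρ₂ → Odd (cnt norm f ζ ρ₁) →
    (∀ α ∈ f.roots, ‖α - ζ‖ ≤ ρ₁ ∨ ρ₂ ≤ ‖α - ζ‖) →
    ∀ ρ ∈ Set.Ioo ρ₁ ρ₂, ∃ x : ℂ, ‖x - ζ‖ = ρ ∧ ‖T.eval x‖ ≤ 1

/-- A2: a polynomial which is small somewhere on each circle of an interval of radii has a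
small leading coefficient -/
def A2Stmt : Prop := ∀ (T : ℂ[X]) (ζ : ℂ) (a b : ℝ), 0 ≤ a → a < b →
    (∀ ρ ∈ Set.Ioo a b, ∃ x : ℂ, ‖x - ζ‖ = ρ ∧ ‖T.eval x‖ ≤ 1) →
    ‖T.leadingCoeff‖ * ((b - a) / 16) ^ T.natDegree ≤ 1

/-- G1: existence of a wide odd annulus for `x^(2m) + r` -/
def G1Stmt : Prop := ∀ m : ℕ, 1 ≤ m → ∃ κ : ℝ, 0 < κ ∧ ∀ r : ℂ[X], r ≠ 0 → r.natDegree < m →
    ∀ j < m, ∃ (ζ : ℂ) (ρ₁ ρ₂ : ℝ), 0 ≤ ρ₁ ∧ ρ₁ < ρ₂ ∧
      κ * ‖r.coeff j‖ ≤ (ρ₂ - ρ₁) ^ (2 * m - j) ∧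
      Odd (cnt norm (X ^ (2 * m) + r) ζ ρ₁) ∧
      ∀ α ∈ (X ^ (2 * m) + r).roots, ‖α - ζ‖ ≤ ρ₁ ∨ ρ₂ ≤ ‖α - ζ‖

/-- N1: the nonarchimedean analogue of A1 + A2 -/
def N1Stmt : Prop := ∀ (E : Type) [Field E] (v : AbsoluteValue E ℝ), IsNonarchimedean v →
    ∀ (u f w : E[X]) (c : E), c ≠ 0 → u ^ 2 - C c = f * w ^ 2 → f.Splits → f ≠ 0 →
    ∀ (ζ : E) (δ : ℝ), 0 < δ → Odd (cnt v f ζ δ) →
    v u.leadingCoeff ^ 2 * δ ^ (2 * u.natDegree) ≤ v c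

/-- G2: existence of an odd cluster for `x^(2m) + r`, nonarchimedean case -/
def G2Stmt : Prop := ∀ m : ℕ, 1 ≤ m → ∃ a : ℕ, ∀ (E : Type) [Field E]
    (v : AbsoluteValue E ℝ), IsNonarchimedean v → (2 : E) ≠ 0 →
    ∀ r : E[X], r ≠ 0 → r.natDegree < m → (X ^ (2 * m) + r).Splits →
    ∀ j < m, ∀ δ : ℝ, 0 < δ → δ ^ (2 * m - j) < v 2 ^ a * v (r.coeff j) →
    ∃ ζ : E, Odd (cnt v (X ^ (2 * m) + r) ζ δ)

/-- H1: the local inequality at an archimedean place -/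
def H1Stmt : Prop := ∀ m : ℕ, 1 ≤ m → ∃ κ : ℝ, 0 < κ ∧ ∀ (r u w : ℂ[X]) (c : ℂ),
    r ≠ 0 → r.natDegree < m → c ≠ 0 → w ≠ 0 → u ^ 2 - (X ^ (2 * m) + r) * w ^ 2 = C c →
    ∀ j < m, (κ * ‖r.coeff j‖) ^ (2 * u.natDegree) * ‖u.leadingCoeff‖ ^ (2 * (2 * m - j)) ≤
      ‖c‖ ^ (2 * m - j)

/-- H2: the local inequality at a nonarchimedean place (all roots in the field) -/
def H2Stmt : Prop := ∀ m : ℕ, 1 ≤ m → ∃ a : ℕ, ∀ (E : Type) [Field E]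
    (v : AbsoluteValue E ℝ), IsNonarchimedean v → (2 : E) ≠ 0 →
    ∀ (r u w : E[X]) (c : E), r ≠ 0 → r.natDegree < m → (X ^ (2 * m) + r).Splits →
    c ≠ 0 → w ≠ 0 → u ^ 2 - (X ^ (2 * m) + r) * w ^ 2 = C c →
    ∀ j < m, (v 2 ^ a * v (r.coeff j)) ^ (2 * u.natDegree) *
      v u.leadingCoeff ^ (2 * (2 * m - j)) ≤ v c ^ (2 * m - j)

/-- EV: extension of a finite place to a finite extension (as an absolute value) -/
def EVStmt : Prop := ∀ (K E : Type) [Field K] [NumberField K] [Field E] [NumberField E]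
    [Algebra K E] (v : FinitePlace K), ∃ v' : AbsoluteValue E ℝ, IsNonarchimedean v' ∧
      ∀ x : K, v' (algebraMap K E x) = v x

/-- H2K: the local inequality at a finite place of a number field -/
def H2KStmt : Prop := ∀ m : ℕ, 1 ≤ m → ∃ a : ℕ, ∀ (K : Type) [Field K] [NumberField K]
    (v : FinitePlace K) (r u w : K[X]) (c : K), r ≠ 0 → r.natDegree < m →
    c ≠ 0 → w ≠ 0 → u ^ 2 - (X ^ (2 * m) + r) * w ^ 2 = C c →
    ∀ j < m, (v 2 ^ a * v (r.coeff j)) ^ (2 * u.natDegree) *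
      v u.leadingCoeff ^ (2 * (2 * m - j)) ≤ v c ^ (2 * m - j)

/-- T2: bounded (weighted projective) height of the torsion parameters -/
def T2Stmt : Prop := ∀ m : ℕ, 2 ≤ m → ∃ B : ℝ, ∀ (K : Type) [Field K] [NumberField K]
    (r : K[X]), r ≠ 0 → r.natDegree < m → (∃ N, Pell (X ^ (2 * m) + r) N) →
    Height.mulHeight (fun j : Fin m => r.coeff j ^ ((2 * m).factorial / (2 * m - j))) ≤
      B ^ (Module.finrank ℚ K)

/-- NCS: Northcott for points of projective space of bounded degree and height -/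
def NCSStmt : Prop := ∀ (ι : Type) [Fintype ι] (d : ℕ) (X : ℝ),
    ∃ F : Finset (ι → AlgebraicClosure ℚ), ∀ (K : Type) [Field K] [NumberField K],
      Module.finrank ℚ K ≤ d → ∀ x : ι → K, x ≠ 0 → Height.mulHeight x ≤ X →
      ∀ φ : K →+* AlgebraicClosure ℚ, ∃ y ∈ F, ∃ μ : AlgebraicClosure ℚ, μ ≠ 0 ∧
        ∀ i, φ (x i) = μ * y i

/-- GAL: descent of Pell solutions to the field of definition -/
def GalStmt : Prop := ∀ (K Ω : Type) [Field K] [CharZero K] [Field Ω] [IsAlgClosed Ω]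
    (φ : K →+* Ω) (m N : ℕ) (f : Polynomial K), f.Monic → f.natDegree = 2 * m → 1 ≤ m →
    (∀ h : Polynomial Ω, h ^ 2 ≠ f.map φ) → (∀ x : Ω, letI := φ.toAlgebra; IsAlgebraic K x) →
    Pell (f.map φ) N → Pell f N

/-- SCL: invariance of solvability under weighted scaling -/
def SclStmt : Prop := ∀ (Ω : Type) [Field Ω] (m N : ℕ) (r s : Polynomial Ω) (t : Ω), t ≠ 0 →
    r.natDegree < m → s.natDegree < m → (∀ j < m, s.coeff j = t ^ (2 * m - j) * r.coeff j) →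
    Pell (X ^ (2 * m) + r) N → Pell (X ^ (2 * m) + s) N

/-- BND: strong uniform bound for the order of `∞₊ - ∞₋` -/
def BndStmt : Prop := ∀ m d : ℕ, 2 ≤ m → ∃ B : ℕ, ∀ (K : Type) [Field K] [NumberField K],
    Module.finrank ℚ K ≤ d → ∀ r : K[X], r ≠ 0 → r.natDegree < m →
    (∃ N, Pell (X ^ (2 * m) + r) N) → ∃ N ≤ B, Pell (X ^ (2 * m) + r) N

end BHT
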