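import Pool.Agent.Helper27_BHT.Stmts
import Pool.Agent.Helper75_BHT.Bnd

open Polynomial NumberField

namespace BHT

/-- finiteness of the torsion parameters of bounded degree, up to weighted scaling -/
theorem finite_params (t2 : T2Stmt) (ncs : NCSStmt) (m d : ℕ) (hm : 2 ≤ m) :
    ∃ S : Finset (Fin m → AlgebraicClosure ℚ), ∀ (K : Type) [Field K] [NumberField K],
      Module.finrank ℚ K ≤ d → ∀ r : K[X], r ≠ 0 → r.natDegree < m →
      (∃ N, Pell (X ^ (2 * m) + r) N) → ∀ φ : K →+* AlgebraicClosure ℚ,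
      ∃ s ∈ S, ∃ t : AlgebraicClosure ℚ, t ≠ 0 ∧
        ∀ j : Fin m, φ (r.coeff j) = t ^ (2 * m - (j : ℕ)) * s j := by
  classical
  obtain ⟨B0, hB0⟩ := t2 m hm
  set M := (2 * m).factorial with hM
  obtain ⟨F, hF⟩ := ncs (Fin m) d ((max |B0| 1) ^ d)
  have hdiv : ∀ j : ℕ, j < m → (2 * m - j) * (M / (2 * m - j)) = M := by
    intro j hj
    exact Nat.mul_div_cancel' (Nat.dvd_factorial (by omega) (by omega))
  have hMpos : 0 < M := Nat.factorial_pos _
  have hepos : ∀ j : ℕ, j < m → 0 < M / (2 * m - j) := by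
    intro j hj
    rcases Nat.eq_zero_or_pos (M / (2 * m - j)) with h | h
    · have := hdiv j hj
      rw [h, mul_zero] at this
      omega
    · exact h
  have hfin : ∀ y : Fin m → QB, {s : Fin m → QB | ∀ j : Fin m, s j ^ (M / (2 * m - j)) = y j}.Finite := by
    intro y
    have h1 : ∀ j : Fin m, {c : QB | c ^ (M / (2 * m - j)) = y j}.Finite := by
      intro j
      refine Set.Finite.subset (nthRoots (M / (2 * m - j)) (y j)).toFinset.finite_toSet ?_
      intro c hc
      simp only [Finset.mem_coe, Multiset.mem_toFinset]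
      exact (mem_nthRoots (hepos j j.2)).mpr hc
    exact Set.Finite.pi' h1
  have hfin2 : (⋃ y ∈ F, {s : Fin m → QB | ∀ j : Fin m, s j ^ (M / (2 * m - j)) = y j}).Finite :=
    Set.Finite.biUnion F.finite_toSet (fun y _ => hfin y)
  set S := hfin2.toFinset with hS
  refine ⟨S, ?_⟩
  intro K _ _ hK r hr hrd hN φ
  set x : Fin m → K := fun j => r.coeff j ^ (M / (2 * m - j)) with hx
  have hx0 : x ≠ 0 := by
    intro h0
    apply hr
    ext j
    rcases lt_or_ge j m with hj | hj
    · have := congrFun h0 ⟨j, hj⟩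
      simp only [hx, Pi.zero_apply] at this
      rw [coeff_zero]
      exact pow_eq_zero_iff (hepos j hj).ne' |>.mp this
    · rw [coeff_zero]; exact coeff_eq_zero_of_natDegree_lt (lt_of_lt_of_le hrd hj)
  have hht : Height.mulHeight x ≤ (max |B0| 1) ^ d := by
    have h1 := hB0 K r hr hrd hN
    have h2 : B0 ^ (Module.finrank ℚ K) ≤ (max |B0| 1) ^ (Module.finrank ℚ K) := by
      refine le_trans (le_abs_self _) ?_
      rw [abs_pow]
      exact pow_le_pow_left₀ (abs_nonneg _) (le_max_left _ _) _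
    have h3 : (max |B0| 1) ^ (Module.finrank ℚ K) ≤ (max |B0| 1) ^ d :=
      pow_le_pow_right₀ (le_max_right _ _) hK
    exact le_trans h1 (le_trans h2 h3)
  obtain ⟨y, hyF, μ, hμ, hy⟩ := hF K hK x hx0 hht φ
  obtain ⟨t, ht⟩ := IsAlgClosed.exists_pow_nat_eq μ hMpos
  have ht0 : t ≠ 0 := by
    rintro rfl
    rw [zero_pow hMpos.ne'] at ht
    exact hμ ht.symm
  refine ⟨fun j => (t ^ (2 * m - (j : ℕ)))⁻¹ * φ (r.coeff j), ?_, t, ht0, ?_⟩
  · rw [hS, Set.Finite.mem_toFinset, Set.mem_iUnion₂]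
    refine ⟨y, hyF, ?_⟩
    intro j
    have := hy j
    simp only [hx] at this
    simp only
    rw [mul_pow, ← inv_pow, ← pow_mul, inv_pow, hdiv j j.2, ht, ← map_pow, this, ← mul_assoc,
      inv_mul_cancel₀ hμ, one_mul]
  · intro j
    rw [← mul_assoc, mul_inv_cancel₀ (pow_ne_zero _ ht0), one_mul]

end BHT
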